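import Mathlib
import Pool.Agent.H92.SC.Sdp

/-!
# Small integrality gap instances for `d`-to-1 label cover with perfect completeness

The instances come from Reed-Muller functions of degree `r` on `F_2 ^ (j + m)` without constant term
(a short code in place of the long code) and their restrictions to the graphs of random linear maps
`F_2 ^ m → F_2 ^ j`; both are folded over the linear functions.

The weight of a set of functions of density `2 ^ (-(j + m))` on the functionals which are sums of few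
evaluations is small by hypercontractivity and the independence of `2 ^ r` evaluations. For any other
functional the linear forms which are divisors of zero for it form a small subspace, and it must
contain all equations of a graph which sees the functional.
-/

set_option autoImplicit false

namespace Pool.Agent.Results.MP_62e2f2_lc.ShortCodeGap

open Finset Pool.Agent.H92.SC

/-- Let `2 ^ j ≤ d`, `2 ≤ r` and `2 ^ r + 2 r j ≤ m`. There is a `d`-to-1 label cover instance with
`2 ^ m` labels on the left and `d 2 ^ m` labels on the right, all fibres of size exactly `d`, at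
most `2 ^ ((m + j) ^ r + m j + 1)` vertices and no multiple edges, for which the basic semidefinite relaxation has a
perfect solution (vectors `x u a`, `y u b`, orthogonal for each vertex, with sum the unit
vector `z`), such that each labelling satisfies at most the fraction `√2 (8 / 2 ^ r) ^ (j / 2)` of
the edges. -/
theorem result (d j r m : ℕ) (hd : 2 ^ j ≤ d) (hr : 2 ≤ r) (hm : 2 ^ r + 2 * (r * j) ≤ m) :
    ∃ (V W E A B D : Type) (_ : Fintype V) (_ : Fintype W) (_ : Fintype E) (_ : Nonempty E)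
      (_ : Fintype A) (_ : Fintype B) (_ : DecidableEq B) (_ : Fintype D)
      (v : E → V) (w : E → W) (π : E → A → B) (x : W → A → D → ℝ) (y : V → B → D → ℝ) (z : D → ℝ),
      Fintype.card B = 2 ^ m ∧ Fintype.card A = d * 2 ^ m ∧
      Fintype.card V + Fintype.card W ≤ 2 ^ ((m + j) ^ r + m * j + 1) ∧
      (Function.Injective fun e => (v e, w e)) ∧
      (∀ e b, (Finset.univ.filter fun a => π e a = b).card = d) ∧
      z ⬝ᵥ z = 1 ∧ (∀ u, ∑ a, x u a = z) ∧ (∀ u, ∑ b, y u b = z) ∧
      (∀ u a a', a ≠ a' → x u a ⬝ᵥ x u a' = 0) ∧ (∀ u b b', b ≠ b' → y u b ⬝ᵥ y u b' = 0) ∧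
      (∀ e a b, 0 ≤ x (w e) a ⬝ᵥ y (v e) b) ∧
      (∀ e, ∑ a, x (w e) a ⬝ᵥ y (v e) (π e a) = 1) ∧
      ∀ (L : W → A) (M : V → B),
        ((Finset.univ.filter fun e => π e (L (w e)) = M (v e)).card : ℝ) ≤
          Real.sqrt (2 * (8 / 2 ^ r) ^ j) * Fintype.card E := by
  classical
  have hr1 : 1 ≤ r := by omega
  -- the surjection
  have hcT : Fintype.card (Module.Dual (ZMod 2) (Fin j → ZMod 2)) = 2 ^ j := by
    rw [card_dual, Fintype.card_fun, ZMod.card, Fintype.card_fin]
  obtain ⟨κ, hκ⟩ : ∃ κ : Fin d → Module.Dual (ZMod 2) (Fin j → ZMod 2),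
      Function.Surjective κ := by
    let e := Fintype.equivFinOfCardEq hcT
    refine ⟨fun i => if h : i.1 < 2 ^ j then e.symm ⟨i.1, h⟩ else 0, fun t => ?_⟩
    refine ⟨⟨(e t).1, lt_of_lt_of_le (e t).2 hd⟩, ?_⟩
    simp
  have hcY : Fintype.card (Fin m → ZMod 2) = 2 ^ m := by
    rw [Fintype.card_fun, ZMod.card, Fintype.card_fin]
  have hfin : ∀ (k n : ℕ), Fintype.card (G0 (Fin k → ZMod 2) n) ≤ 2 ^ (k ^ n) := fun k n =>
    (Fintype.card_le_of_injective (Submodule.inclusion (inf_le_left : G0 (Fin k → ZMod 2) n ≤ _))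
      (Submodule.inclusion_injective _)).trans (card_RM_le n k (by simp))
  refine ⟨(Fin j → Module.Dual (ZMod 2) (Fin m → ZMod 2)) × G0 (Fin m → ZMod 2) r,
    G0 (UU j (Fin m → ZMod 2)) r,
    G0 (UU j (Fin m → ZMod 2)) r × (Fin j → Module.Dual (ZMod 2) (Fin m → ZMod 2)),
    Fin d × Module.Dual (ZMod 2) (Fin m → ZMod 2), Module.Dual (ZMod 2) (Fin m → ZMod 2),
    UU j (Fin m → ZMod 2), inferInstance, inferInstance, inferInstance, inferInstance,
    inferInstance, inferInstance, inferInstance, inferInstance, lv hr1, Prod.fst, pr κ,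
    xv hκ, yv, zv j (Fin m → ZMod 2), ?_, ?_, ?_, ?_, pr_fibre κ, zv_unit, xv_sum hr1 hκ,
    yv_sum hr1, xv_orth hκ, yv_orth, ?_, ?_, ?_⟩
  · rw [card_dual, hcY]
  · rw [Fintype.card_prod, Fintype.card_fin, card_dual, hcY]
  · rw [Fintype.card_prod, Fintype.card_fun, Fintype.card_fin, card_dual, hcY]
    have h1 := hfin m r
    have h2 : Fintype.card (G0 (UU j (Fin m → ZMod 2)) r) ≤ 2 ^ ((m + j) ^ r) :=
      (Fintype.card_le_of_injective
        (Submodule.inclusion (inf_le_left : G0 (UU j (Fin m → ZMod 2)) r ≤ _))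
        (Submodule.inclusion_injective _)).trans (card_RM_le r (m + j) (by
          rw [Module.finrank_prod]; simp [add_comm]))
    have h3 : (2 ^ m) ^ j * Fintype.card (G0 (Fin m → ZMod 2) r) ≤
        2 ^ ((m + j) ^ r + m * j) := by
      calc (2 ^ m) ^ j * Fintype.card (G0 (Fin m → ZMod 2) r)
          ≤ (2 ^ m) ^ j * 2 ^ (m ^ r) := Nat.mul_le_mul_left _ h1
        _ = 2 ^ (m ^ r + m * j) := by rw [← pow_mul, ← pow_add, add_comm]
        _ ≤ _ := Nat.pow_le_pow_right (by norm_num)
            (Nat.add_le_add_right (Nat.pow_le_pow_left (Nat.le_add_right _ _) r) _)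
    have h4 : Fintype.card (G0 (UU j (Fin m → ZMod 2)) r) ≤ 2 ^ ((m + j) ^ r + m * j) :=
      h2.trans (Nat.pow_le_pow_right (by norm_num) (Nat.le_add_right _ _))
    rw [pow_succ]
    omega
  · intro e e' h
    exact Prod.ext (congrArg Prod.snd h) (congrArg (fun p => p.1.1) h)
  · intro e a b
    rw [dot_fibre (pr κ e) (xv_orth hκ e.1) (perfect hr1 hκ e)]
    split_ifs
    · exact Finset.sum_nonneg fun i _ => mul_self_nonneg _
    · exact le_refl _
  · intro e
    rw [← zv_unit (j := j) (Y := Fin m → ZMod 2), ← norm_sum (xv_orth hκ e.1) (xv_sum hr1 hκ e.1)]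
    refine Finset.sum_congr rfl fun a _ => ?_
    rw [dot_fibre (pr κ e) (xv_orth hκ e.1) (perfect hr1 hκ e), if_pos rfl]
  · intro L M
    obtain ⟨s, rfl⟩ : ∃ s, r = s + 2 := ⟨r - 2, by omega⟩
    have h1 := game_value hr1 (2 ^ s) (by rw [pow_add]; norm_num; linarith) κ L M
    obtain ⟨E, hE⟩ : ∃ E : ℝ, E = Fintype.card (G0 (UU j (Fin m → ZMod 2)) (s + 2) ×
      (Fin j → Module.Dual (ZMod 2) (Fin m → ZMod 2))) := ⟨_, rfl⟩
    have hE0 : 0 ≤ E := by rw [hE]; positivity
    rw [← hE] at h1 ⊢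
    have h8 : (0 : ℝ) < 2 * (8 / 2 ^ (s + 2)) ^ j := by positivity
    have h2 : (2 : ℝ) ^ j * (3 ^ (2 ^ s) / Real.sqrt (Fintype.card (UU j (Fin m → ZMod 2))) +
        1 / ((2 ^ s : ℕ) + 2) ^ j) ≤ 2 * (8 / 2 ^ (s + 2)) ^ j := by
      have e1 : (8 / 2 ^ (s + 2) : ℝ) ^ j = 2 ^ j * (1 / (2 ^ s) ^ j) := by
        rw [← one_div_pow, ← mul_pow, pow_add]
        congr 1
        field_simp
        norm_num
      rw [e1]
      have e2 : (1 : ℝ) / (((2 ^ s : ℕ) : ℝ) + 2) ^ j ≤ 1 / (2 ^ s) ^ j := by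
        apply one_div_le_one_div_of_le (by positivity)
        apply pow_le_pow_left₀ (by positivity)
        push_cast
        linarith
      have e3 : (3 : ℝ) ^ (2 ^ s) / Real.sqrt (Fintype.card (UU j (Fin m → ZMod 2))) ≤
          1 / (2 ^ s) ^ j := by
        have e4 : (2 : ℝ) ^ (2 * 2 ^ s + (s + 2) * j) ≤
            Real.sqrt (Fintype.card (UU j (Fin m → ZMod 2))) := by
          apply Real.le_sqrt_of_sq_le
          rw [card_UU, hcY]
          push_cast
          rw [← pow_mul, ← pow_add]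
          apply pow_le_pow_right₀ (by norm_num)
          have : 2 ^ (s + 2) = 4 * 2 ^ s := by rw [pow_add]; norm_num; ring
          rw [this] at hm
          nlinarith
        have e5 : (3 : ℝ) ^ (2 ^ s) ≤ 2 ^ (2 * 2 ^ s) := by
          rw [pow_mul]
          exact pow_le_pow_left₀ (by norm_num) (by norm_num) _
        have e6 : (0 : ℝ) < Real.sqrt (Fintype.card (UU j (Fin m → ZMod 2))) :=
          lt_of_lt_of_le (by positivity) e4
        rw [div_le_div_iff₀ e6 (by positivity), one_mul]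
        calc (3 : ℝ) ^ (2 ^ s) * (2 ^ s) ^ j ≤ 2 ^ (2 * 2 ^ s) * 2 ^ ((s + 2) * j) := by
              apply mul_le_mul e5 _ (by positivity) (by positivity)
              rw [← pow_mul]
              exact pow_le_pow_right₀ (by norm_num)
                (Nat.mul_le_mul_right _ (by omega))
          _ = 2 ^ (2 * 2 ^ s + (s + 2) * j) := by rw [pow_add]
          _ ≤ _ := e4
      calc _ ≤ (2 : ℝ) ^ j * (1 / (2 ^ s) ^ j + 1 / (2 ^ s) ^ j) :=
            mul_le_mul_of_nonneg_left (add_le_add e3 e2) (by positivity)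
        _ = _ := by ring
    have h3 := h1.trans (mul_le_mul_of_nonneg_right h2 (sq_nonneg E))
    have h4 : 2 * (8 / 2 ^ (s + 2) : ℝ) ^ j * E ^ 2 =
        (Real.sqrt (2 * (8 / 2 ^ (s + 2)) ^ j) * E) ^ 2 := by
      rw [mul_pow, Real.sq_sqrt h8.le]
    rw [h4] at h3
    exact (le_abs_self _).trans (abs_le_of_sq_le_sq h3 (by positivity))

end Pool.Agent.Results.MP_62e2f2_lc.ShortCodeGap
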